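import Pool.Agent.Y229.MS.Stm
import Pool.Agent.W417.MT.Free

/-!
# Project MS: the part `y = 0` (`TaskONEB`), and the sum (`TaskONE`)
-/

set_option autoImplicit false
set_option linter.all false

namespace Pool.Agent.Y971.MS

open MvPolynomial Pool.Agent.W428.MOT
open Pool.Agent.W375.MG (JetG Good)
open Pool.Agent.Y229.MS

section
variable {K : Type} [Field K] {n : ℕ}

/-- the jets form a constructible set -/
theorem constr_jet {m : ℕ} (f : MvPolynomial (Fin m) K) {W : Set (Pt K (Fin m))} (hW : Constr W)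
    {E : Set (AlgebraicClosure K)} (hE : CE E) (N : ℕ) : Constr (JetG f W E N) := by
  unfold JetG
  refine Constr.and (hW.preimage _ fun i => IsPF.coord _)
    (Constr.and (Constr.allLt _ fun j _ => ?_) (hE _ ?_))
  · exact Constr.eqz (IsPA.aeval (fun i z => arc z i) (fun i => isPA_arc i) f j)
  · exact IsPA.aeval (fun i z => arc z i) (fun i => isPA_arc i) f N

theorem constr_Wyz {W : Set (Pt K (Fin n))} (hW : Constr W) : Constr (Wyz W) :=
  hW.preimage _ fun i => IsPF.coord _

/-- the value of `f + y z` -/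
theorem aeval_addyz {S : Type} [CommRing S] [Algebra K S] (γ : Fin (n + 2) → S)
    (f : MvPolynomial (Fin n) K) :
    aeval γ (addyz f) = aeval (fun i => γ (Fin.castAdd 2 i)) f +
      γ (Fin.natAdd n 0) * γ (Fin.natAdd n 1) := by
  unfold addyz
  rw [map_add, map_mul, aeval_X, aeval_X, aeval_rename]
  rfl

/-- forget `y` and `z` -/
def fg (N : ℕ) (z : Pt K (Fin (n + 2) × Fin (N + 1))) : Pt K (Fin n × Fin (N + 1)) :=
  fun p => z (Fin.castAdd 2 p.1, p.2)

/-- append zeros -/
noncomputable def ap (N : ℕ) (z : Pt K (Fin n × Fin (N + 1))) : Pt K (Fin (n + 2) × Fin (N + 1)) :=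
  fun p => Fin.addCases (fun i => z (i, p.2)) (fun _ => 0) p.1

theorem ap_cast (N : ℕ) (z : Pt K (Fin n × Fin (N + 1))) (i : Fin n) (j : Fin (N + 1)) :
    ap N z (Fin.castAdd 2 i, j) = z (i, j) := by
  simp [ap]

theorem ap_nat (N : ℕ) (z : Pt K (Fin n × Fin (N + 1))) (i : Fin 2) (j : Fin (N + 1)) :
    ap N z (Fin.natAdd n i, j) = 0 := by
  simp [ap]

theorem arc_fg (N : ℕ) (z : Pt K (Fin (n + 2) × Fin (N + 1))) :
    arc (fg N z) = fun i => arc z (Fin.castAdd 2 i) := rfl

theorem arc_zero {m N : ℕ} (z : Pt K (Fin m × Fin (N + 1))) (i : Fin m) (h : ∀ j, z (i, j) = 0) :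
    arc z i = 0 := by
  ext j
  rw [arc, PowerSeries.coeff_mk]
  split_ifs with hj
  · rw [h]; simp
  · simp

/-- the value of `f + y z` for `y = 0` -/
theorem aeval_y0 (f : MvPolynomial (Fin n) K) {N : ℕ} (z : Pt K (Fin (n + 2) × Fin (N + 1)))
    (h : ∀ j, z (Fin.natAdd n 0, j) = 0) :
    aeval (arc z) (addyz f) = aeval (arc (fg N z)) f := by
  rw [aeval_addyz, arc_zero z _ h, zero_mul, add_zero, arc_fg]

theorem mem_y0 (f : MvPolynomial (Fin n) K) (W : Set (Pt K (Fin n))) (E : Set (AlgebraicClosure K))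
    {N : ℕ} (z : Pt K (Fin (n + 2) × Fin (N + 1))) (h : ∀ j, z (Fin.natAdd n 0, j) = 0) :
    z ∈ JetG (addyz f) (Wyz W) E N ↔ fg N z ∈ JetG f W E N := by
  unfold JetG
  simp only [Set.mem_ofPred_eq]
  rw [aeval_y0 f z h]
  rfl

end

theorem oneb : TaskONEB := by
  classical
  intro K _ R _ M n f W E hW hE N
  obtain ⟨Y0, hY0⟩ : ∃ Y0 : Set (Pt K (Fin (n + 2) × Fin (N + 1))),
      Y0 = {w | ∀ j, w (Fin.natAdd n 0, j) = 0} := ⟨_, rfl⟩
  have cY0 : Constr Y0 := by
    rw [hY0]
    exact Constr.all fun j => Constr.eqz (IsPF.coord _)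
  have cJ := constr_jet (addyz f) (constr_Wyz hW) hE N
  obtain ⟨F1, hF1⟩ : ∃ F1 : Finset (Fin (n + 2) × Fin (N + 1)),
      F1 = Finset.univ.filter fun p => p.1 = Fin.natAdd n 1 := ⟨_, rfl⟩
  have hcard : F1.card = N + 1 := by
    have h1 : F1 = (Finset.univ : Finset (Fin (N + 1))).map
        ⟨fun j => (Fin.natAdd n 1, j), fun a b h => (Prod.ext_iff.1 h).2⟩ := by
      rw [hF1]
      ext p
      simp only [Finset.mem_filter, Finset.mem_univ, true_and, Finset.mem_map,
        Function.Embedding.coeFn_mk]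
      constructor
      · intro h
        exact ⟨p.2, Prod.ext h.symm rfl⟩
      · rintro ⟨j, rfl⟩
        rfl
    rw [h1, Finset.card_map, Finset.card_univ, Fintype.card_fin]
  have hfree := Pool.Agent.W417.MT.Free.main M (JetG (addyz f) (Wyz W) E N ∩ Y0) ∅ F1 (fun _ => 0)
    (Finset.disjoint_empty_left _) (cJ.inter cY0) (by
      intro z w hzw hz
      have hz0 : ∀ j, z (Fin.natAdd n 0, j) = 0 := by
        have := hz.2
        rw [hY0] at this
        exact this
      have hne : ∀ (i : Fin (n + 2)) (j : Fin (N + 1)), i ≠ Fin.natAdd n 1 → w (i, j) = z (i, j) := by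
        intro i j hi
        refine hzw (i, j) (by simp) ?_
        rw [hF1]
        simpa using hi
      have hw0 : ∀ j, w (Fin.natAdd n 0, j) = 0 := by
        intro j
        rw [hne _ j (by simp [Fin.ext_iff]), hz0 j]
      have hfg : fg N w = fg N z := by
        funext p
        refine hne _ p.2 ?_
        intro h
        have h1 := congrArg Fin.val h
        have := p.1.2
        simp at h1
        omega
      refine ⟨?_, by rw [hY0]; exact hw0⟩
      rw [mem_y0 f W E w hw0, hfg]
      exact (mem_y0 f W E z hz0).1 hz.1)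
  simp only [Finset.notMem_empty, false_implies, implies_true, Set.ofPred_true, Set.inter_univ,
    Finset.empty_union, map_zero, Finset.card_empty, pow_zero, mul_one] at hfree
  rw [← hY0, hfree, hcard]
  congr 1
  refine M.iso _ _ ((cJ.inter cY0).inter (Constr.ballFinset _ fun p _ => Constr.eqz (IsPF.coord _)))
    (constr_jet f hW hE N) (fg N) (ap N) (regularOn_poly (fun p => IsPF.coord _) _)
    (regularOn_poly (fun p => ?_) _) ?_ ?_ ?_ ?_
  · obtain ⟨i, j⟩ := p
    refine Fin.addCases (fun i => ?_) (fun i => ?_) i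
    · simp only [ap_cast]
      exact IsPF.coord _
    · simp only [ap_nat]
      exact IsPF.zero
  · rintro z ⟨⟨h1, h2⟩, h3⟩
    rw [hY0] at h2
    exact (mem_y0 f W E z h2).1 h1
  · intro z hz
    have h0 : ∀ j, ap N z (Fin.natAdd n 0, j) = 0 := fun j => ap_nat N z 0 j
    have hfa : fg N (ap N z) = z := by
      funext p
      exact ap_cast N z p.1 p.2
    refine ⟨⟨?_, by rw [hY0]; exact h0⟩, ?_⟩
    · rw [mem_y0 f W E _ h0, hfa]
      exact hz
    · intro p hp
      rw [hF1] at hp
      simp only [Finset.mem_filter, Finset.mem_univ, true_and] at hp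
      obtain ⟨i, j⟩ := p
      simp only at hp
      subst hp
      exact ap_nat N z 1 j
  · rintro z ⟨⟨h1, h2⟩, h3⟩
    rw [hY0] at h2
    funext p
    obtain ⟨i, j⟩ := p
    refine Fin.addCases (fun i => ?_) (fun i => ?_) i
    · rw [ap_cast]
      rfl
    · rw [ap_nat]
      have h4 : i = 0 ∨ i = 1 := by
        rcases i with ⟨i, hi⟩
        have : i = 0 ∨ i = 1 := by omega
        rcases this with rfl | rfl
        · left; rfl
        · right; rfl
      rcases h4 with rfl | rfl
      · exact (h2 j).symm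
      · exact (h3 (Fin.natAdd n 1, j) (by rw [hF1]; simp)).symm
  · intro z _
    funext p
    exact ap_cast N z p.1 p.2

theorem one (h : TaskONEA) : TaskONE := by
  classical
  intro K _ R _ M n f W E hW hE N
  have cJ := constr_jet (addyz f) (constr_Wyz hW) hE N
  have cY : ∀ i : ℕ, Constr (Yi (K := K) n i N) := by
    intro i
    unfold Yi
    exact (Constr.all fun j => Constr.imp' fun _ => Constr.eqz (IsPF.coord _)).and
      (Constr.all fun j => Constr.imp' fun _ => (Constr.eqz (IsPF.coord _)).not)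
  obtain ⟨P, hP⟩ : ∃ P : Option (Fin (N + 1)) → Set (Pt K (Fin (n + 2) × Fin (N + 1))),
      P = fun a => Option.elim a {w | ∀ j, w (Fin.natAdd n 0, j) = 0}
        fun i : Fin (N + 1) => Yi n (i : ℕ) N := ⟨_, rfl⟩
  have hcov := Pool.Agent.W749.MT.χ_cover M (JetG (addyz f) (Wyz W) E N) P cJ (by
      intro a
      rw [hP]
      cases a with
      | none => exact Constr.all fun j => Constr.eqz (IsPF.coord _)
      | some i => exact cY i)
    (by
      intro a b hab
      rw [Set.disjoint_left, hP]
      cases a with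
      | none =>
        cases b with
        | none => exact absurd rfl hab
        | some b =>
          intro z hz hz'
          exact hz'.2 b rfl (hz b)
      | some a =>
        cases b with
        | none =>
          intro z hz hz'
          exact hz.2 a rfl (hz' a)
        | some b =>
          intro z hz hz'
          rcases lt_trichotomy (a : ℕ) (b : ℕ) with h1 | h1 | h1
          · exact hz.2 a rfl (hz'.1 a h1)
          · exact hab (by rw [Fin.ext h1])
          · exact hz'.2 b rfl (hz.1 b h1))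
    (by
      intro z _
      rw [hP]
      by_cases h0 : ∀ j, z (Fin.natAdd n 0, j) = 0
      · exact ⟨none, h0⟩
      · push Not at h0
        have hex : ∃ k : ℕ, ∃ hk : k < N + 1, z (Fin.natAdd n 0, ⟨k, hk⟩) ≠ 0 := by
          obtain ⟨j, hj⟩ := h0
          exact ⟨j, j.2, hj⟩
        obtain ⟨hk, hne⟩ := Nat.find_spec hex
        refine ⟨some ⟨Nat.find hex, hk⟩, ?_, ?_⟩
        · intro j hj
          have := Nat.find_min hex hj
          push Not at this
          exact this j.2
        · intro j hj
          have e : j = ⟨Nat.find hex, hk⟩ := Fin.ext hj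
          rw [e]
          exact hne)
  rw [hcov, Fintype.sum_option, hP]
  simp only [Option.elim]
  rw [oneb K R M f W E hW hE N, Finset.mul_sum, Finset.sum_range]
  congr 1
  refine Finset.sum_congr rfl fun i _ => ?_
  exact h K R M f W E hW hE i N (Nat.lt_succ_iff.1 i.2)

end Pool.Agent.Y971.MS
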